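import Pool.Agent.Helper82.EN.Basic

set_option autoImplicit false

/-! # ENCODING BY TM, module UPO: the unvisited case in the direction `+` -/

namespace Pool.Agent.Helper82.EN

/-- discrete intermediate value theorem -/
theorem upo_ivt {p : ℕ → ℤ} (hp : ∀ t, |p (t + 1) - p t| ≤ 1) {a b : ℕ} (hab : a ≤ b) {z : ℤ}
    (h1 : p a ≤ z) (h2 : z ≤ p b) : ∃ t, a ≤ t ∧ t ≤ b ∧ p t = z := by
  induction b, hab using Nat.le_induction with
  | base => exact ⟨a, le_rfl, le_rfl, le_antisymm h1 h2⟩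
  | succ b hab ih =>
    by_cases h : z ≤ p b
    · obtain ⟨t, h3, h4, h5⟩ := ih h
      exact ⟨t, h3, by omega, h5⟩
    · refine ⟨b + 1, by omega, le_rfl, ?_⟩
      have h6 := abs_le.1 (hp b)
      omega

theorem upo_mono {S : ℕ → ℕ} {L : ℕ}
    (hS : ∀ j, 1 ≤ j → S j + L ≤ S (j + 1) ∧ S (j + 1) ≤ S j + 2 * L) {i j : ℕ} (hi : 1 ≤ i)
    (hij : i ≤ j) : S i + (j - i) * L ≤ S j := by
  induction j, hij using Nat.le_induction with
  | base => simp
  | succ j hij ih =>
    have h1 := (hS j (by omega)).1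
    have h2 : j + 1 - i = (j - i) + 1 := by omega
    rw [h2, Nat.add_mul, Nat.one_mul]
    omega

theorem upo_block {S : ℕ → ℕ} {L : ℕ} (h0 : S 0 = 0) (hL : 1 ≤ L)
    (hS : ∀ j, 1 ≤ j → S j + L ≤ S (j + 1) ∧ S (j + 1) ≤ S j + 2 * L) {x : ℤ} (hx : 0 ≤ x) :
    ∃ j, (S j : ℤ) ≤ x ∧ x < S (j + 1) := by
  classical
  have hex : ∃ j, x < S (j + 1) := by
    refine ⟨x.toNat + 1, ?_⟩
    have h1 := upo_mono hS (le_refl 1) (show 1 ≤ x.toNat + 1 + 1 by omega)
    have h2 : x.toNat + 1 + 1 - 1 = x.toNat + 1 := by omega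
    rw [h2] at h1
    have h3 : x.toNat + 1 ≤ (x.toNat + 1) * L := Nat.le_mul_of_pos_right _ hL
    have h4 : (x.toNat : ℤ) = x := Int.toNat_of_nonneg hx
    omega
  refine ⟨Nat.find hex, ?_, Nat.find_spec hex⟩
  rcases Nat.eq_zero_or_pos (Nat.find hex) with h | h
  · rw [h, h0]
    simpa using hx
  · have h1 := Nat.find_min hex (Nat.sub_lt h Nat.one_pos)
    rw [Nat.sub_add_cancel h] at h1
    omega

theorem st_UPO : ST_UPO := by
  intro p S good L κ k hp hp0 hS0 hS1 hS hL _ hlag hk hgood hst hev hreg hun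
  classical
  have hLp : 1 ≤ L := by omega
  have hS1p : 0 < S 1 := by
    by_contra h
    have h1 := hlag 0 (by omega)
    rw [hp0] at h1
    simp at h1
  have ht0 : S 1 ≤ S (k - 13) := by
    have := upo_mono hS (le_refl 1) (show 1 ≤ k - 13 by omega)
    omega
  have hk13 : S (k - 13) + 13 * L ≤ S k := by
    have h1 := upo_mono hS (show 1 ≤ k - 13 by omega) (show k - 13 ≤ k by omega)
    have h2 : k - (k - 13) = 13 := by omega
    rwa [h2] at h1
  have hk3 : S k + 3 * L ≤ S (k + 3) := by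
    have h1 := upo_mono hS (show 1 ≤ k by omega) (show k ≤ k + 3 by omega)
    have h2 : k + 3 - k = 3 := by omega
    rwa [h2] at h1
  have hz0 : 0 ≤ p (S (k - 13)) + κ := by
    by_contra h
    exact hun 0 (by omega) 0 (by omega) hp0
  obtain ⟨tF, htF, hF⟩ := Finset.exists_max_image (Finset.Ico (S (k - 13)) (S k)) p
    ⟨S (k - 13), Finset.mem_Ico.2 ⟨le_rfl, by omega⟩⟩
  obtain ⟨tG, htG, hG⟩ := Finset.exists_max_image (Finset.Ico (S k) (S (k + 3))) p
    ⟨S k, Finset.mem_Ico.2 ⟨le_rfl, by omega⟩⟩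
  rw [Finset.mem_Ico] at htF htG
  have hF' : ∀ t, S (k - 13) ≤ t → t < S k → p t ≤ p tF := fun t h1 h2 =>
    hF t (Finset.mem_Ico.2 ⟨h1, h2⟩)
  have hG' : ∀ t, S k ≤ t → t < S (k + 3) → p t ≤ p tG := fun t h1 h2 =>
    hG t (Finset.mem_Ico.2 ⟨h1, h2⟩)
  -- lower bound for `p tF`
  have hlow := hst (S (k - 13)) (S k - 1) le_rfl (by omega) (by omega)
  have hlow2 := hF' (S k - 1) (by omega) (by omega)
  by_cases hFG : p tG ≤ p tF
  · refine ⟨k - 13, k - 12, by omega, fun j h1 h2 => hgood j (by omega) (by omega), ?_⟩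
    intro z hz
    obtain ⟨h1, t, h2, h3, h4⟩ := hz
    have h5 := h1 tF htF.1 htF.2
    have h6 := hG' t h2 h3
    exfalso
    linarith
  rw [not_le] at hFG
  obtain ⟨j1, hj1, hj1'⟩ := upo_block hS0 hLp hS (x := p tF + 1) (by omega)
  obtain ⟨j2, hj2, hj2'⟩ := upo_block hS0 hLp hS (x := p tG) (by omega)
  have hj1p : 1 ≤ j1 := by
    by_contra h
    have h1 : j1 = 0 := by omega
    rw [h1] at hj1'
    norm_num at hj1'
    omega
  have hSj1 := (hS j1 hj1p).2
  have hkey : p (S (k - 13)) + κ < S j1 := by omega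
  have hj12 : j1 ≤ j2 := by
    by_contra h
    have h1 := upo_mono hS (show 1 ≤ j2 + 1 by omega) (show j2 + 1 ≤ j1 by omega)
    omega
  -- the positions `S j`
  have hnear : ∀ j, j1 ≤ j → j ≤ j2 → ¬ Near good (j - 1) := by
    intro j h1 h2 h3
    have h4 := upo_mono hS hj1p h1
    have h5 := upo_mono hS (show 1 ≤ j by omega) h2
    have h6 : ∀ t < S (k - 13), p t ≠ S j := hun _ (by omega)
    obtain ⟨t, h7, h8, h9⟩ := upo_ivt hp (show S (k - 13) ≤ tG by omega)
      (show p (S (k - 13)) ≤ (S j : ℤ) by omega) (show (S j : ℤ) ≤ p tG by omega)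
    have hex : ∃ t, p t = S j := ⟨t, h9⟩
    have h10 : Nat.find hex ≤ t := Nat.find_min' hex h9
    have h11 : S (k - 13) ≤ Nat.find hex := by
      by_contra h
      exact h6 _ (by omega) (Nat.find_spec hex)
    refine hev (j - 1) h3 (Nat.find hex) h11 (by omega) ⟨?_, ?_⟩
    · rw [Nat.sub_add_cancel (by omega : 1 ≤ j)]
      exact Nat.find_spec hex
    · intro u hu
      rw [Nat.sub_add_cancel (by omega : 1 ≤ j)]
      exact Nat.find_min hex hu
  have hgd : ∀ j b, j1 ≤ j → j ≤ j2 → b ≤ j + 1 → j ≤ b + 3 → good b := by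
    intro j b h1 h2 h3 h4
    by_contra h5
    exact hnear j h1 h2 ⟨b, h5, by omega, by omega⟩
  refine ⟨j1 - 1, j2 + 1, by omega, ?_, ?_⟩
  · intro b h1 h2
    by_cases h3 : b ≤ j1
    · exact hgd j1 b le_rfl hj12 (by omega) (by omega)
    · by_cases h4 : b ≤ j2
      · exact hgd b b (by omega) h4 (by omega) (by omega)
      · exact hgd j2 b hj12 le_rfl (by omega) (by omega)
  · intro z hz
    have hz' := hreg z hz
    obtain ⟨h1, t, h2, h3, h4⟩ := hz
    have h5 := h1 tF htF.1 htF.2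
    have h6 := hG' t h2 h3
    rw [Nat.sub_add_cancel hj1p]
    exact ⟨by omega, by omega, hz'⟩

end Pool.Agent.Helper82.EN
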